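import Pool.Agent.H164R3.AmLower

set_option autoImplicit false

open Finset
open scoped ENNReal

namespace Pool.Agent.Results.MP_31efb7_an.AmenabilityBound

open Pool.Agent.H164R3.Amen

/-- points of the tree: root, hub, `n` middle points, `n * n` leaves -/
inductive Pt (n : ℕ)
  | root : Pt n
  | hub : Pt n
  | mid (i : Fin n) : Pt n
  | leaf (x : Fin n × Fin n) : Pt n
  deriving DecidableEq

instance (n : ℕ) : Finite (Pt n) := by
  let f : Option (Option (Fin n ⊕ (Fin n × Fin n))) → Pt n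
    | none => Pt.root
    | some none => Pt.hub
    | some (some (Sum.inl i)) => Pt.mid i
    | some (some (Sum.inr x)) => Pt.leaf x
  apply Finite.of_surjective f
  rintro (_ | _ | i | x)
  · exact ⟨none, rfl⟩
  · exact ⟨some none, rfl⟩
  · exact ⟨some (some (Sum.inl i)), rfl⟩
  · exact ⟨some (some (Sum.inr x)), rfl⟩

/-- the set of non-root vertices on the path from the root -/
def path {n : ℕ} : Pt n → Finset (Pt n)
  | Pt.root => ∅
  | Pt.hub => {Pt.hub}
  | Pt.mid i => {Pt.hub, Pt.mid i}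
  | Pt.leaf x => {Pt.hub, Pt.mid x.1, Pt.leaf x}

lemma path_inj {n : ℕ} : Function.Injective (path (n := n)) := by
  rintro (_ | _ | i | x) (_ | _ | j | y) h
  all_goals first
    | rfl
    | (exfalso
       rw [Finset.ext_iff] at h
       have h1 := h Pt.hub
       simp [path] at h1
       done)
    | skip
  · exfalso; rw [Finset.ext_iff] at h; have := h (Pt.mid j); simp [path] at this
  · exfalso; rw [Finset.ext_iff] at h; have := h (Pt.leaf y); simp [path] at this
  · exfalso; rw [Finset.ext_iff] at h; have := h (Pt.mid i); simp [path] at this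
  · rw [Finset.ext_iff] at h; have := h (Pt.mid i); simp [path] at this; rw [this]
  · exfalso; rw [Finset.ext_iff] at h; have := h (Pt.leaf y); simp [path] at this
  · exfalso; rw [Finset.ext_iff] at h; have := h (Pt.leaf x); simp [path] at this
  · exfalso; rw [Finset.ext_iff] at h; have := h (Pt.leaf x); simp [path] at this
  · rw [Finset.ext_iff] at h; have := h (Pt.leaf x); simp [path] at this; rw [this]

/-- tree distance -/
def ρ {n : ℕ} (x y : Pt n) : ℕ := (symmDiff (path x) (path y)).card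

lemma ρ_eq_zero {n : ℕ} (x y : Pt n) : ρ x y = 0 ↔ x = y := by
  rw [ρ, Finset.card_eq_zero]
  constructor
  · intro h
    apply path_inj
    exact symmDiff_eq_bot.mp h
  · rintro rfl
    exact symmDiff_self _

lemma ρ_comm {n : ℕ} (x y : Pt n) : ρ x y = ρ y x := by rw [ρ, ρ, symmDiff_comm]

lemma ρ_triangle {n : ℕ} (x y z : Pt n) : ρ x z ≤ ρ x y + ρ y z := by
  rw [ρ, ρ, ρ]
  refine (Finset.card_le_card (?_ : symmDiff (path x) (path z) ⊆
    symmDiff (path x) (path y) ∪ symmDiff (path y) (path z))).trans (Finset.card_union_le _ _)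
  exact symmDiff_triangle _ _ _

lemma ρ_root_hub {n : ℕ} : ρ (Pt.root : Pt n) Pt.hub ≤ 1 := by
  have : symmDiff (path (Pt.root : Pt n)) (path Pt.hub) ⊆ {Pt.hub} := by
    intro u hu
    simp [path, Finset.mem_symmDiff] at hu
    simp [hu]
  exact (Finset.card_le_card this).trans (by simp)

lemma ρ_hub_mid {n : ℕ} (i : Fin n) : ρ (Pt.hub : Pt n) (Pt.mid i) ≤ 1 := by
  have : symmDiff (path (Pt.hub : Pt n)) (path (Pt.mid i)) ⊆ {Pt.mid i} := by
    intro u hu
    simp only [path, Finset.mem_symmDiff, mem_singleton, mem_insert] at hu ⊢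
    tauto
  exact (Finset.card_le_card this).trans (by simp)

lemma ρ_mid_leaf {n : ℕ} (x : Fin n × Fin n) : ρ (Pt.mid x.1) (Pt.leaf x) ≤ 1 := by
  have : symmDiff (path (Pt.mid x.1)) (path (Pt.leaf x)) ⊆ {Pt.leaf x} := by
    intro u hu
    simp only [path, Finset.mem_symmDiff, mem_singleton, mem_insert] at hu ⊢
    tauto
  exact (Finset.card_le_card this).trans (by simp)

lemma ρ_root_leaf {n : ℕ} (x : Fin n × Fin n) : 3 ≤ ρ Pt.root (Pt.leaf x) := by
  have h : ({Pt.hub, Pt.mid x.1, Pt.leaf x} : Finset (Pt n)) ⊆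
      symmDiff (path Pt.root) (path (Pt.leaf x)) := by
    intro u hu
    simp only [path, Finset.mem_symmDiff, mem_singleton, mem_insert, notMem_empty] at hu ⊢
    tauto
  refine le_trans ?_ (Finset.card_le_card h)
  rw [Finset.card_insert_of_notMem (by simp), Finset.card_insert_of_notMem (by simp),
    Finset.card_singleton]

lemma ρ_leaf_leaf {n : ℕ} (x y : Fin n × Fin n) (h : x ≠ y) : 2 ≤ ρ (Pt.leaf x) (Pt.leaf y) := by
  have h' : ({Pt.leaf x, Pt.leaf y} : Finset (Pt n)) ⊆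
      symmDiff (path (Pt.leaf x)) (path (Pt.leaf y)) := by
    intro u hu
    simp only [mem_insert, mem_singleton] at hu
    rcases hu with rfl | rfl
    · simp [path, Finset.mem_symmDiff, h]
    · simp [path, Finset.mem_symmDiff, h.symm]
  refine le_trans ?_ (Finset.card_le_card h')
  rw [Finset.card_insert_of_notMem (by simpa using h), Finset.card_singleton]

lemma ρ_leaf_leaf' {n : ℕ} (x y : Fin n × Fin n) (h : x.1 ≠ y.1) :
    3 ≤ ρ (Pt.leaf x) (Pt.leaf y) := by
  have hne : x ≠ y := fun e => h (by rw [e])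
  have h' : ({Pt.mid x.1, Pt.leaf x, Pt.leaf y} : Finset (Pt n)) ⊆
      symmDiff (path (Pt.leaf x)) (path (Pt.leaf y)) := by
    intro u hu
    simp only [mem_insert, mem_singleton] at hu
    rcases hu with rfl | rfl | rfl
    · simp [path, Finset.mem_symmDiff, h]
    · simp [path, Finset.mem_symmDiff, hne]
    · simp [path, Finset.mem_symmDiff, hne.symm]
  refine le_trans ?_ (Finset.card_le_card h')
  rw [Finset.card_insert_of_notMem (by simp), Finset.card_insert_of_notMem (by simpa using hne),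
    Finset.card_singleton]

/-- the `q`-metric -/
noncomputable def dd {n : ℕ} (q : ℝ) (x y : Pt n) : ℝ := (ρ x y : ℝ) ^ (1 / q)

lemma isRMetric_dd {n : ℕ} {q : ℝ} (hq : 0 < q) : IsRMetric q (dd q : Pt n → Pt n → ℝ) := by
  have hpow : ∀ x y : Pt n, dd q x y ^ q = ρ x y := by
    intro x y
    rw [dd, ← Real.rpow_mul (Nat.cast_nonneg _), one_div_mul_cancel hq.ne', Real.rpow_one]
  refine ⟨fun x y => Real.rpow_nonneg (Nat.cast_nonneg _) _, ?_, ?_, ?_⟩
  · intro x y
    rw [dd, Real.rpow_eq_zero (Nat.cast_nonneg _) (by positivity), Nat.cast_eq_zero, ρ_eq_zero]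
  · intro x y
    rw [dd, dd, ρ_comm]
  · intro x y z
    rw [hpow, hpow, hpow]
    exact_mod_cast ρ_triangle x y z

/-- embedding of the leaves and the root -/
def emb {n : ℕ} : Option (Fin n × Fin n) → Pt n
  | none => Pt.root
  | some x => Pt.leaf x

lemma emb_inj {n : ℕ} : Function.Injective (emb (n := n)) := by
  rintro (_ | x) (_ | y) h
  · rfl
  · simp [emb] at h
  · simp [emb] at h
  · simp only [emb, Pt.leaf.injEq] at h; rw [h]

/-- weights -/
noncomputable def ww {n : ℕ} (s : ℝ) (u v : Option (Fin n × Fin n)) : ℝ :=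
  (ρ (emb u) (emb v) : ℝ) ^ s

lemma ww_nonneg {n : ℕ} (s : ℝ) (u v : Option (Fin n × Fin n)) : 0 ≤ ww s u v :=
  Real.rpow_nonneg (Nat.cast_nonneg _) _

lemma ww_symm {n : ℕ} (s : ℝ) (u v : Option (Fin n × Fin n)) : ww s u v = ww s v u := by
  rw [ww, ww, ρ_comm]

lemma ww_one {n : ℕ} {s : ℝ} (hs : 0 ≤ s) (u v : Option (Fin n × Fin n)) (h : u ≠ v) :
    1 ≤ ww s u v := by
  have h1 : ρ (emb u) (emb v) ≠ 0 := by
    rw [Ne, ρ_eq_zero]; exact fun e => h (emb_inj e)
  have h2 : (1 : ℝ) ≤ ρ (emb u) (emb v) := by exact_mod_cast Nat.one_le_iff_ne_zero.mpr h1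
  exact Real.one_le_rpow h2 hs

/-- the subset -/
def SS (n : ℕ) : Set (Pt n) := Set.range emb

/-- the Lipschitz map to the flow space -/
noncomputable def ff {n : ℕ} : Pt n → (Fin n × Fin n → ℝ)
  | Pt.leaf x => Pi.single x 1
  | _ => 0

/-- a flow along one edge -/
def edge {n : ℕ} (u v : Option (Fin n × Fin n)) : Option (Fin n × Fin n) →
    Option (Fin n × Fin n) → ℝ := fun a b => if a = u ∧ b = v then 1 else 0

lemma dv_edge {n : ℕ} (u v : Option (Fin n × Fin n)) :
    dv (edge u v) = ff (emb v) - ff (emb u) := by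
  funext x
  simp only [dv, edge, sum_sub_distrib, Pi.sub_apply]
  congr 1
  · by_cases h : some x = v
    · subst h
      simp [emb, ff]
    · have : ff (emb v) x = 0 := by
        rcases v with _ | y
        · simp [emb, ff]
        · have : x ≠ y := fun e => h (by rw [e])
          simp [emb, ff, this]
      rw [this]; simp [h]
  · by_cases h : some x = u
    · subst h
      simp [emb, ff]
    · have : ff (emb u) x = 0 := by
        rcases u with _ | y
        · simp [emb, ff]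
        · have : x ≠ y := fun e => h (by rw [e])
          simp [emb, ff, this]
      rw [this]; simp [h]

lemma cost_edge {n : ℕ} {p : ℝ} (hp : 0 < p) (w : Option (Fin n × Fin n) → Option (Fin n × Fin n) → ℝ)
    (u v : Option (Fin n × Fin n)) : cost p w (edge u v) = w u v := by
  rw [cost, Finset.sum_eq_single u, Finset.sum_eq_single v]
  · simp [edge]
  · intro b _ hb; simp [edge, hb, Real.zero_rpow hp.ne']
  · simp
  · intro b _ hb
    apply Finset.sum_eq_zero
    intro c _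
    simp [edge, hb, Real.zero_rpow hp.ne']
  · simp

lemma lip {n : ℕ} {p q : ℝ} (hp : 0 < p) (u v : Option (Fin n × Fin n)) :
    NY p (ww (p / q)) (ff (emb u) - ff (emb v)) ≤ dd q (emb u) (emb v) := by
  rw [NY_le_iff hp (ww_nonneg _) _ (c := dd q (emb u) (emb v))
    (Real.rpow_nonneg (Nat.cast_nonneg _) _)]
  have h1 := Ψ_le (p := p) (ww_nonneg (n := n) (p / q)) (dv_edge v u)
  rw [cost_edge hp] at h1
  refine h1.trans (le_of_eq ?_)
  rw [ww, dd, ← Real.rpow_mul (Nat.cast_nonneg _), ρ_comm]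
  congr 1
  rw [div_mul_eq_mul_div, one_mul]

/-- subadditivity for finite sums -/
lemma norm_sum_le {p : ℝ} (hp : 0 < p) {Y : Type} [AddCommGroup Y] [Module ℝ Y] {N : Y → ℝ}
    (h : IsPBanach p N) {ι : Type*} (s : Finset ι) (x : ι → Y) :
    N (∑ i ∈ s, x i) ^ p ≤ ∑ i ∈ s, N (x i) ^ p := by
  classical
  induction s using Finset.induction_on with
  | empty =>
    rw [sum_empty, sum_empty, (h.eq_zero_iff 0).mpr rfl, Real.zero_rpow hp.ne']
  | insert a s ha ih =>
    rw [sum_insert ha, sum_insert ha]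
    exact (h.add _ _).trans (by linarith)

lemma upper {n : ℕ} {p q : ℝ} (hp : 0 < p) {Y : Type} [AddCommGroup Y] [Module ℝ Y]
    {N : Y → ℝ} (h : IsPBanach p N) (f : Pt n → Y) (h0 : f Pt.root = 0)
    (hf : ∀ x y, N (f x - f y) ≤ dd q x y) (hq : 0 < q) :
    N (∑ x : Fin n × Fin n, f (Pt.leaf x)) ^ p
      ≤ (n : ℝ) * n + n * (n : ℝ) ^ p + ((n : ℝ) * n) ^ p := by
  have hd1 : ∀ x y : Pt n, ρ x y ≤ 1 → N (f x - f y) ≤ 1 := by
    intro x y hxy
    refine (hf x y).trans ?_
    rw [dd]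
    exact Real.rpow_le_one (Nat.cast_nonneg _) (by exact_mod_cast hxy) (by positivity)
  have hd1p : ∀ x y : Pt n, ρ x y ≤ 1 → N (f x - f y) ^ p ≤ 1 := fun x y hxy =>
    Real.rpow_le_one (h.nonneg _) (hd1 x y hxy) hp.le
  have e : ∑ x : Fin n × Fin n, f (Pt.leaf x)
      = (∑ x : Fin n × Fin n, (f (Pt.leaf x) - f (Pt.mid x.1)))
        + (∑ i : Fin n, (n : ℝ) • (f (Pt.mid i) - f Pt.hub))
        + ((n : ℝ) * n) • (f Pt.hub - f Pt.root) := by
    rw [h0, sub_zero, sum_sub_distrib]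
    have e1 : ∑ x : Fin n × Fin n, f (Pt.mid x.1) = ∑ i : Fin n, (n : ℝ) • f (Pt.mid i) := by
      rw [Fintype.sum_prod_type]
      refine sum_congr rfl fun i _ => ?_
      simp [Nat.cast_smul_eq_nsmul]
    have e2 : ∑ i : Fin n, (n : ℝ) • (f (Pt.mid i) - f Pt.hub)
        = ∑ i : Fin n, (n : ℝ) • f (Pt.mid i) - ((n : ℝ) * n) • f Pt.hub := by
      simp only [smul_sub, sum_sub_distrib]
      congr 1
      rw [sum_const, card_univ, Fintype.card_fin, ← Nat.cast_smul_eq_nsmul ℝ, smul_smul]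
    rw [e1, e2]; abel
  rw [e]
  have t1 : N (∑ x : Fin n × Fin n, (f (Pt.leaf x) - f (Pt.mid x.1))) ^ p ≤ (n : ℝ) * n := by
    refine (norm_sum_le hp h _ _).trans ?_
    calc ∑ x : Fin n × Fin n, N (f (Pt.leaf x) - f (Pt.mid x.1)) ^ p
        ≤ ∑ x : Fin n × Fin n, (1 : ℝ) :=
          sum_le_sum fun x _ => hd1p _ _ (by rw [ρ_comm]; exact ρ_mid_leaf x)
      _ = (n : ℝ) * n := by simp
  have t2 : N (∑ i : Fin n, (n : ℝ) • (f (Pt.mid i) - f Pt.hub)) ^ p ≤ n * (n : ℝ) ^ p := by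
    refine (norm_sum_le hp h _ _).trans ?_
    calc ∑ i : Fin n, N ((n : ℝ) • (f (Pt.mid i) - f Pt.hub)) ^ p
        ≤ ∑ i : Fin n, (n : ℝ) ^ p := by
          refine sum_le_sum fun i _ => ?_
          rw [h.smul, Real.mul_rpow (abs_nonneg _) (h.nonneg _), Nat.abs_cast]
          have := hd1p (Pt.mid i) Pt.hub (by rw [ρ_comm]; exact ρ_hub_mid i)
          calc (n : ℝ) ^ p * N (f (Pt.mid i) - f Pt.hub) ^ p ≤ (n : ℝ) ^ p * 1 := by gcongr
            _ = _ := mul_one _
      _ = n * (n : ℝ) ^ p := by simp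
  have t3 : N (((n : ℝ) * n) • (f Pt.hub - f Pt.root)) ^ p ≤ ((n : ℝ) * n) ^ p := by
    rw [h.smul, Real.mul_rpow (abs_nonneg _) (h.nonneg _), abs_of_nonneg (by positivity)]
    have := hd1p Pt.hub Pt.root (by rw [ρ_comm]; exact ρ_root_hub)
    calc ((n : ℝ) * n) ^ p * N (f Pt.hub - f Pt.root) ^ p ≤ ((n : ℝ) * n) ^ p * 1 := by gcongr
      _ = _ := mul_one _
  have a1 := h.add ((∑ x : Fin n × Fin n, (f (Pt.leaf x) - f (Pt.mid x.1)))
        + (∑ i : Fin n, (n : ℝ) • (f (Pt.mid i) - f Pt.hub)))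
        (((n : ℝ) * n) • (f Pt.hub - f Pt.root))
  have a2 := h.add (∑ x : Fin n × Fin n, (f (Pt.leaf x) - f (Pt.mid x.1)))
        (∑ i : Fin n, (n : ℝ) • (f (Pt.mid i) - f Pt.hub))
  linarith

/-- the element `∑ δ(leaf)` -/
noncomputable def μμ (n : ℕ) : SS n →₀ ℝ :=
  ∑ x : Fin n × Fin n, Finsupp.single (⟨Pt.leaf x, ⟨some x, rfl⟩⟩ : SS n) 1

lemma choose_n {p β γ : ℝ} (hp : 0 < p) (hp1 : p < 1) (hβ : 0 < β) (hβγ : β < γ) :
    ∃ n : ℕ, 2 ≤ n ∧ γ * ((n : ℝ) ^ p - 1) ≤ (γ - β) * (n - 1) ∧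
      β * ((n : ℝ) * n + n * (n : ℝ) ^ p + ((n : ℝ) * n) ^ p)
        < n * (β * (n - 1) + γ * (n : ℝ) ^ p) := by
  have h1 : Filter.Tendsto (fun n : ℕ => (n : ℝ) ^ (-p)) Filter.atTop (nhds 0) :=
    (tendsto_rpow_neg_atTop hp).comp tendsto_natCast_atTop_atTop
  have h2 : Filter.Tendsto (fun n : ℕ => (n : ℝ) ^ (-(1 - p))) Filter.atTop (nhds 0) :=
    (tendsto_rpow_neg_atTop (by linarith)).comp tendsto_natCast_atTop_atTop
  have hγ : 0 < γ := hβ.trans hβγ
  set ε : ℝ := min ((γ - β) / (2 * γ)) ((γ - β) / (4 * β)) with hε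
  have hε0 : 0 < ε := by
    apply lt_min
    · apply div_pos <;> linarith
    · apply div_pos <;> linarith
  obtain ⟨n, hn, hn1, hn2⟩ := ((Filter.eventually_ge_atTop 2).and
    ((h1.eventually (gt_mem_nhds hε0)).and (h2.eventually (gt_mem_nhds hε0)))).exists
  refine ⟨n, hn, ?_, ?_⟩
  · have hnR : (2 : ℝ) ≤ n := by exact_mod_cast hn
    have e1 : (n : ℝ) ^ p = n * (n : ℝ) ^ (-(1 - p)) := by
      nth_rewrite 2 [← Real.rpow_one (n : ℝ)]
      rw [← Real.rpow_add (by linarith)]; congr 1; ring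
    have h3 : (n : ℝ) ^ (-(1 - p)) ≤ (γ - β) / (2 * γ) := hn2.le.trans (min_le_left _ _)
    rw [le_div_iff₀ (by linarith)] at h3
    rw [e1]
    have h4 : γ * (n * (n : ℝ) ^ (-(1 - p))) ≤ (γ - β) * n / 2 := by nlinarith
    nlinarith
  · have hnR : (2 : ℝ) ≤ n := by exact_mod_cast hn
    have hn0 : (0 : ℝ) < n := by linarith
    have h3 : (n : ℝ) ^ (-(1 - p)) < (γ - β) / (4 * β) := hn2.trans_le (min_le_right _ _)
    have h4 : (n : ℝ) ^ (-p) < (γ - β) / (4 * β) := hn1.trans_le (min_le_right _ _)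
    rw [lt_div_iff₀ (by linarith)] at h3 h4
    set X := (n : ℝ) ^ p with hX
    have hX0 : 0 < X := Real.rpow_pos_of_pos hn0 p
    have e1 : (n : ℝ) ^ (-(1 - p)) = X / n := by
      rw [hX, neg_sub, Real.rpow_sub hn0, Real.rpow_one]
    have e2 : (n : ℝ) ^ (-p) = 1 / X := by
      rw [Real.rpow_neg hn0.le, one_div]
    have e3 : ((n : ℝ) * n) ^ p = X * X := by rw [Real.mul_rpow hn0.le hn0.le]
    rw [e3]
    rw [e1] at h3
    rw [e2] at h4
    have h5 : X * (4 * β) < (γ - β) * n := by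
      have := mul_lt_mul_of_pos_right h3 hn0
      have e : X / n * (4 * β) * n = X * (4 * β) := by field_simp
      linarith [this, e.symm.le, e.le]
    have h6 : 4 * β < (γ - β) * X := by
      have := mul_lt_mul_of_pos_right h4 hX0
      have e : 1 / X * (4 * β) * X = 4 * β := by field_simp
      linarith [this, e.symm.le, e.le]
    nlinarith [mul_lt_mul_of_pos_right h5 hX0, mul_lt_mul_of_pos_right h6 hn0, mul_pos hβ hn0,
      mul_pos (mul_pos hβ hX0) hX0]

/-- For all `0 < p < 1` and `p ≤ q ≤ 1` one has `sup_n A_p^q(n) > 2 ^ (1 / q)`. -/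
theorem result (p q : ℝ) (hp : 0 < p) (hp1 : p < 1) (hpq : p ≤ q) (_hq1 : q ≤ 1) :
    ENNReal.ofReal ((2 : ℝ) ^ (1 / q)) < ⨆ n : ℕ, A p q n := by
  have hq : 0 < q := hp.trans_le hpq
  set s : ℝ := p / q with hs
  have hs0 : 0 < s := div_pos hp hq
  have hβ : (0 : ℝ) < 2 ^ s := by positivity
  have hβγ : (2 : ℝ) ^ s < 3 ^ s := Real.rpow_lt_rpow (by norm_num) (by norm_num) hs0
  obtain ⟨n, hn, hC1, hC2⟩ := choose_n hp hp1 hβ hβγ
  have hn0 : (0 : ℝ) < n := by have : (2 : ℝ) ≤ n := by exact_mod_cast hn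
                               linarith
  set Lw : ℝ := n * (2 ^ s * (n - 1) + 3 ^ s * (n : ℝ) ^ p) with hLw
  set U : ℝ := (n : ℝ) * n + n * (n : ℝ) ^ p + ((n : ℝ) * n) ^ p with hU
  have hU0 : 0 < U := by positivity
  have hLw0 : 0 < Lw := lt_trans (by positivity) hC2
  have ho : Pt.root ∈ SS n := ⟨none, rfl⟩
  -- lower bound on the free norm over the subset
  have hlow : ENNReal.ofReal (Lw ^ (1 / p))
      ≤ freeNorm p (fun x y : SS n => dd q (x : Pt n) y) ⟨Pt.root, ho⟩ (μμ n) := by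
    have hN : IsPBanach p (NY p (ww (n := n) s)) :=
      isPBanach_NY hp hp1.le (ww_nonneg s) (ww_one hs0.le)
    have hsum : ((μμ n).sum fun x a => a • ff (x : Pt n)) = fun _ => (1 : ℝ) := by
      rw [μμ, ← Finsupp.sum_finsetSum_index]
      · have : ∀ x : Fin n × Fin n,
            ((Finsupp.single (⟨Pt.leaf x, ⟨some x, rfl⟩⟩ : SS n) (1 : ℝ)).sum
              fun x a => a • ff (x : Pt n)) = Pi.single x 1 := by
          intro x
          rw [Finsupp.sum_single_index]
          · simp [ff]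
          · simp
        simp only [this]
        funext y
        rw [Finset.sum_apply]
        simp [Pi.single_apply]
      · intro a; simp
      · intro a b1 b2; rw [add_smul]
    have hval : Lw ≤ NY p (ww (n := n) s) (fun _ => (1 : ℝ)) ^ p := by
      rw [NY_rpow hp (ww_nonneg s)]
      refine le_Ψ fun F hF => ?_
      refine flow_lower hn hp hp1.le hβ.le hβγ.le hC1 (ww_nonneg s) (ww_symm s) ?_ ?_ ?_ F
        (fun x => by rw [hF])
      · intro x
        exact Real.rpow_le_rpow (by norm_num) (by exact_mod_cast ρ_root_leaf x) hs0.le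
      · intro x y hxy
        exact Real.rpow_le_rpow (by norm_num) (by exact_mod_cast ρ_leaf_leaf' x y hxy) hs0.le
      · intro x y hxy
        exact Real.rpow_le_rpow (by norm_num) (by exact_mod_cast ρ_leaf_leaf x y hxy) hs0.le
    have hval' : Lw ^ (1 / p) ≤ NY p (ww (n := n) s) (fun _ => (1 : ℝ)) := by
      have h1 := Real.rpow_le_rpow hLw0.le hval (show 0 ≤ 1 / p by positivity)
      rwa [← Real.rpow_mul (hN.nonneg _), mul_one_div_cancel hp.ne', Real.rpow_one] at h1
    refine (ENNReal.ofReal_le_ofReal hval').trans ?_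
    rw [freeNorm]
    refine le_iSup_of_le (Fin n × Fin n → ℝ) (le_iSup_of_le inferInstance
      (le_iSup_of_le inferInstance (le_iSup_of_le (NY p (ww s)) (le_iSup_of_le hN
      (le_iSup_of_le (fun x : SS n => ff (x : Pt n)) (le_iSup_of_le ?_ (le_iSup_of_le ?_ ?_)))))))
    · rfl
    · rintro ⟨x, u, rfl⟩ ⟨y, v, rfl⟩
      exact lip hp u v
    · rw [hsum]
  -- upper bound on the free norm over the whole space
  have hup : freeNorm p (dd q) Pt.root ((μμ n).mapDomain Subtype.val)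
      ≤ ENNReal.ofReal (U ^ (1 / p)) := by
    rw [freeNorm]
    refine iSup_le fun Y => iSup_le fun i1 => iSup_le fun i2 => iSup_le fun N => iSup_le fun hN =>
      iSup_le fun f => iSup_le fun h0 => iSup_le fun hf => ?_
    apply ENNReal.ofReal_le_ofReal
    have e : (((μμ n).mapDomain Subtype.val).sum fun x a => a • f x)
        = ∑ x : Fin n × Fin n, f (Pt.leaf x) := by
      rw [Finsupp.sum_mapDomain_index (by simp) (by intro a b1 b2; rw [add_smul]), μμ,
        ← Finsupp.sum_finsetSum_index]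
      · refine sum_congr rfl fun x _ => ?_
        rw [Finsupp.sum_single_index (by simp), one_smul]
      · intro a; simp
      · intro a b1 b2; rw [add_smul]
    rw [e]
    have h1 := upper hp hN f h0 hf hq
    have h2 := Real.rpow_le_rpow (Real.rpow_nonneg (hN.nonneg _) _) h1 (show 0 ≤ 1 / p by positivity)
    rwa [← Real.rpow_mul (hN.nonneg _), mul_one_div_cancel hp.ne', Real.rpow_one] at h2
  -- the ratio
  have hratio : ENNReal.ofReal ((2 : ℝ) ^ (1 / q))
      < ENNReal.ofReal (Lw ^ (1 / p)) / ENNReal.ofReal (U ^ (1 / p)) := by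
    rw [← ENNReal.ofReal_div_of_pos (Real.rpow_pos_of_pos hU0 _),
      ← Real.div_rpow hLw0.le hU0.le]
    rw [ENNReal.ofReal_lt_ofReal_iff (by positivity)]
    have h1 : (2 : ℝ) ^ s < Lw / U := by rw [lt_div_iff₀ hU0]; exact hC2
    have h2 := Real.rpow_lt_rpow hβ.le h1 (show 0 < 1 / p by positivity)
    rw [← Real.rpow_mul (by norm_num)] at h2
    have e : s * (1 / p) = 1 / q := by rw [hs]; field_simp
    rwa [e] at h2
  refine hratio.trans_le ?_
  have hcard : ∃ k : ℕ, (SS n).ncard = k + 1 := by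
    have : 0 < (SS n).ncard := (Set.ncard_pos (Set.toFinite _)).mpr ⟨_, ho⟩
    exact ⟨(SS n).ncard - 1, by omega⟩
  obtain ⟨k, hk⟩ := hcard
  refine le_iSup_of_le k ?_
  rw [A]
  refine le_iSup_of_le (Pt n) (le_iSup_of_le inferInstance (le_iSup_of_le (dd q)
    (le_iSup_of_le (isRMetric_dd hq) (le_iSup_of_le Pt.root (le_iSup_of_le (SS n)
    (le_iSup_of_le ho (le_iSup_of_le hk ?_)))))))
  rw [am]
  refine le_iSup_of_le (μμ n) (le_iSup_of_le ?_ ?_)
  · have i0 : Fin n := ⟨0, by omega⟩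
    refine ⟨⟨Pt.leaf (i0, i0), ⟨some (i0, i0), rfl⟩⟩, by simp, ?_⟩
    rw [μμ, Finsupp.finsetSum_apply, Finset.sum_eq_single (i0, i0)]
    · simp
    · intro b _ hb
      rw [Finsupp.single_apply, if_neg]
      intro e
      have e' : Pt.leaf b = Pt.leaf (i0, i0) := congrArg Subtype.val e
      rw [Pt.leaf.injEq] at e'
      exact hb e'
    · simp
  · exact ENNReal.div_le_div hlow hup

end Pool.Agent.Results.MP_31efb7_an.AmenabilityBound
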